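import Pool.Agent.TH931.LP.StmB

/-!
LP931-B2 (helper241): heights near a vertex of a polytope.
-/

set_option autoImplicit false

open MeasureTheory Set Filter
open scoped ENNReal Matrix Pointwise Topology

noncomputable section

namespace Pool.Agent.TH241.LP931

open Pool.Agent.TH931.LP
open Pool.Agent.W686.LP (SB)

variable {n : ℕ} {U V : Type}

open Classical in
theorem dot_ctr [Fintype V] (F : Fr n U V) (a a' : U) :
    F.u a' ⬝ᵥ ctr F a = (((Finset.univ.filter fun b => F.u a ⬝ᵥ F.v b = 1).card : ℝ))⁻¹ *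
      ∑ b ∈ Finset.univ.filter (fun b => F.u a ⬝ᵥ F.v b = 1), F.u a' ⬝ᵥ F.v b := by
  unfold ctr
  rw [dotProduct_smul, dotProduct_sum, smul_eq_mul]

open Classical in
theorem card_pos [Fintype V] (F : Fr n U V) (hF : Good F) (a : U) :
    0 < (Finset.univ.filter fun b => F.u a ⬝ᵥ F.v b = 1).card := by
  obtain ⟨b, hb⟩ := hF.half.hit a
  exact Finset.card_pos.2 ⟨b, by simpa using hb⟩

theorem ctr_self [Fintype V] (F : Fr n U V) (hF : Good F) (a : U) :
    F.u a ⬝ᵥ ctr F a = 1 := by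
  classical
  rw [dot_ctr]
  have h := card_pos F hF a
  rw [Finset.sum_congr rfl (g := fun _ => (1 : ℝ)) (by intro b hb; simpa using hb)]
  rw [Finset.sum_const, nsmul_eq_mul, mul_one]
  exact inv_mul_cancel₀ (by exact_mod_cast h.ne')

theorem ctr_le [Fintype V] (F : Fr n U V) (hF : Good F) (a a' : U) :
    F.u a' ⬝ᵥ ctr F a ≤ 1 := by
  classical
  rw [dot_ctr]
  have h := card_pos F hF a
  have h2 : ∑ b ∈ Finset.univ.filter (fun b => F.u a ⬝ᵥ F.v b = 1), F.u a' ⬝ᵥ F.v b ≤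
      ∑ b ∈ Finset.univ.filter (fun b => F.u a ⬝ᵥ F.v b = 1), (1 : ℝ) :=
    Finset.sum_le_sum fun b _ => hF.le_one a' b
  rw [Finset.sum_const, nsmul_eq_mul, mul_one] at h2
  have h3 : (0 : ℝ) < ((Finset.univ.filter fun b => F.u a ⬝ᵥ F.v b = 1).card : ℝ) := by
    exact_mod_cast h
  rw [inv_mul_le_iff₀ h3, mul_one]
  exact h2

theorem ctr_lt [Fintype V] (F : Fr n U V) (hF : Good F) (a a' : U) (haa : a ≠ a') :
    F.u a' ⬝ᵥ ctr F a < 1 := by
  classical
  rw [dot_ctr]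
  have h := card_pos F hF a
  obtain ⟨b₀, hb₀, hb₁⟩ := hF.half.strict a a' haa
  have h2 : ∑ b ∈ Finset.univ.filter (fun b => F.u a ⬝ᵥ F.v b = 1), F.u a' ⬝ᵥ F.v b <
      ∑ b ∈ Finset.univ.filter (fun b => F.u a ⬝ᵥ F.v b = 1), (1 : ℝ) :=
    Finset.sum_lt_sum (fun b _ => hF.le_one a' b) ⟨b₀, by simpa using hb₀, hb₁⟩
  rw [Finset.sum_const, nsmul_eq_mul, mul_one] at h2
  have h3 : (0 : ℝ) < ((Finset.univ.filter fun b => F.u a ⬝ᵥ F.v b = 1).card : ℝ) := by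
    exact_mod_cast h
  rw [inv_mul_lt_iff₀ h3, mul_one]
  exact h2

theorem mem_body (F : Fr n U V) (hF : Good F) {x : Fin n → ℝ} (h : ∀ a, F.u a ⬝ᵥ x ≤ 1) :
    x ∈ F.body := by
  show F.N x ≤ 1
  rw [← hF.half.eq x]
  exact h _

theorem cont_dot (w : Fin n → ℝ) : Continuous fun x : Fin n → ℝ => w ⬝ᵥ x := by
  unfold dotProduct
  fun_prop

theorem body_nhds [Fintype U] (F : Fr n U V) (hF : Good F) : F.body ∈ 𝓝 (0 : Fin n → ℝ) := by
  have h1 : ∀ a, ∀ᶠ x in 𝓝 (0 : Fin n → ℝ), F.u a ⬝ᵥ x < 1 := by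
    intro a
    have := (cont_dot (F.u a)).tendsto 0
    rw [dotProduct_zero] at this
    exact this.eventually_lt_const one_pos
  filter_upwards [eventually_all.2 h1] with x hx
  exact mem_body F hF fun a => (hx a).le

/-- near the center of a facet the other facets are not hit -/
theorem exists_rho [Fintype U] [Fintype V] (F : Fr n U V) (hF : Good F) :
    ∃ ρ : ℝ, 0 < ρ ∧ ∀ a, ∀ z : Fin n → ℝ, F.u a ⬝ᵥ z = 1 → ‖z - ctr F a‖ ≤ ρ → z ∈ F.body := by
  have h1 : ∀ a a', a ≠ a' → ∀ᶠ z in 𝓝 (ctr F a), F.u a' ⬝ᵥ z < 1 := by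
    intro a a' haa
    exact ((cont_dot (F.u a')).tendsto _).eventually_lt_const (ctr_lt F hF a a' haa)
  have h2 : ∀ a, ∃ ε : ℝ, 0 < ε ∧ ∀ z, dist z (ctr F a) < ε → ∀ a', a ≠ a' → F.u a' ⬝ᵥ z < 1 := by
    intro a
    have h3 : ∀ᶠ z in 𝓝 (ctr F a), ∀ a', a ≠ a' → F.u a' ⬝ᵥ z < 1 := by
      refine eventually_all.2 fun a' => ?_
      by_cases haa : a = a'
      · exact Eventually.of_forall fun z h => absurd haa h
      · filter_upwards [h1 a a' haa] with z hz _ using hz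
    obtain ⟨ε, hε, h4⟩ := Metric.eventually_nhds_iff.1 h3
    exact ⟨ε, hε, fun z hz => h4 hz⟩
  choose ε hε h3 using h2
  have h4 : ∀ᶠ ρ in 𝓝[>] (0 : ℝ), ∀ a, ρ < ε a := by
    refine eventually_all.2 fun a => ?_
    exact nhdsWithin_le_nhds (gt_mem_nhds (hε a))
  obtain ⟨ρ, hρ, hρ0⟩ := (h4.and self_mem_nhdsWithin).exists
  refine ⟨ρ, hρ0, fun a z hz hzc => mem_body F hF fun a' => ?_⟩
  by_cases haa : a = a'
  · rw [← haa, hz]
  · refine (h3 a z ?_ a' haa).le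
    rw [dist_eq_norm]
    exact lt_of_le_of_lt hzc (hρ a)

theorem b2 : S_b2 := by
  intro n U V _ _ F hF
  obtain ⟨ρ, hρ, hb⟩ := exists_rho F hF
  refine ⟨ρ, 1 + ∑ b, ‖F.v b‖, hρ, by positivity, ?_⟩
  intro κ r δ hκ hκ1 hr hδ hrδ K hK hFK hKN a b hab
  have hKn : K ∈ 𝓝 (0 : Fin n → ℝ) := mem_of_superset (body_nhds F hF) hFK
  have hKa : Absorbent ℝ K := absorbent_nhds_zero hKn
  set w : Fin n → ℝ := (1 - κ) • F.v b + κ • ctr F a with hw
  have hGG : GG F K κ a b = gauge K w := rfl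
  have hwb : w ∈ F.body := by
    refine mem_body F hF fun a' => ?_
    rw [hw, dotProduct_add, dotProduct_smul, dotProduct_smul, smul_eq_mul, smul_eq_mul]
    have h1 := hF.le_one a' b
    have h2 := ctr_le F hF a a'
    nlinarith
  have hwa : F.u a ⬝ᵥ w = 1 := by
    rw [hw, dotProduct_add, dotProduct_smul, dotProduct_smul, smul_eq_mul, smul_eq_mul, hab,
      ctr_self F hF a]
    ring
  have hg1 : gauge K w ≤ 1 := gauge_le_one_of_mem (hFK hwb)
  have hg2 : 1 - gauge K w ≤ δ := by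
    have h1 : 1 / (1 + δ) ≤ gauge K w := by
      by_contra hlt
      push Not at hlt
      obtain ⟨s, hs0, hs1, hs2⟩ := exists_lt_of_gauge_lt hKa hlt
      obtain ⟨x, hx, hxs⟩ := Set.mem_smul_set.1 hs2
      have h2 : F.u a ⬝ᵥ w = s * (F.u a ⬝ᵥ x) := by
        rw [← hxs, dotProduct_smul, smul_eq_mul]
      have h3 : F.u a ⬝ᵥ x ≤ 1 + δ := (hF.half.le a x).trans (hKN x hx)
      have h4 : s * (1 + δ) < 1 := by
        rwa [lt_div_iff₀ (by linarith)] at hs1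
      rw [hwa] at h2
      nlinarith
    have h5 : 1 - δ ≤ 1 / (1 + δ) := by
      rw [le_div_iff₀ (by linarith)]
      nlinarith
    linarith
  rw [hGG]
  refine ⟨hg1, hg2, ?_⟩
  intro x hx hxr
  have h1κ : (0 : ℝ) < 1 - κ := by linarith
  by_cases hx1 : F.u a ⬝ᵥ x ≤ 1
  · have : 0 ≤ (1 + δ) * (1 - gauge K w) / (1 - κ) := by
      apply div_nonneg _ h1κ.le
      apply mul_nonneg <;> linarith
    linarith
  push Not at hx1
  obtain ⟨t, ht⟩ : ∃ t, t = F.u a ⬝ᵥ x - 1 := ⟨_, rfl⟩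
  have ht0 : 0 < t := by linarith
  have htδ : t ≤ δ := by
    have := (hF.half.le a x).trans (hKN x hx)
    linarith
  have hux : F.u a ⬝ᵥ x = 1 + t := by linarith
  have h1t : (0 : ℝ) < 1 + t := by linarith
  set z : Fin n → ℝ := ctr F a + ((1 - κ) / κ) • (F.v b - (1 + t)⁻¹ • x) with hz
  have hza : F.u a ⬝ᵥ z = 1 := by
    rw [hz, dotProduct_add, dotProduct_smul, dotProduct_sub, dotProduct_smul, smul_eq_mul,
      smul_eq_mul, hab, ctr_self F hF a, hux, inv_mul_cancel₀ h1t.ne']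
    ring
  have hvb : ‖F.v b‖ ≤ ∑ b, ‖F.v b‖ :=
    Finset.single_le_sum (f := fun b => ‖F.v b‖) (fun _ _ => norm_nonneg _) (Finset.mem_univ b)
  have hzc : ‖z - ctr F a‖ ≤ ρ := by
    have e1 : z - ctr F a = ((1 - κ) / κ) • (F.v b - (1 + t)⁻¹ • x) := by
      rw [hz]; abel
    have e2 : F.v b - (1 + t)⁻¹ • x = (1 + t)⁻¹ • ((F.v b - x) + t • F.v b) := by
      rw [smul_add, smul_sub, smul_smul]
      have : F.v b = ((1 + t)⁻¹ + (1 + t)⁻¹ * t) • F.v b := by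
        rw [show (1 + t)⁻¹ + (1 + t)⁻¹ * t = (1 + t)⁻¹ * (1 + t) by ring,
          inv_mul_cancel₀ h1t.ne', one_smul]
      conv_lhs => rw [this, add_smul]
      abel
    have e3 : ‖F.v b - (1 + t)⁻¹ • x‖ ≤ r + (1 + ∑ b, ‖F.v b‖) * δ := by
      rw [e2, norm_smul, norm_inv, Real.norm_eq_abs, abs_of_pos h1t]
      have e4 : ‖F.v b - x + t • F.v b‖ ≤ r + t * ‖F.v b‖ := by
        refine (norm_add_le _ _).trans ?_
        rw [norm_sub_rev, norm_smul, Real.norm_eq_abs, abs_of_pos ht0]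
        linarith
      have e5 : (1 + t)⁻¹ ≤ 1 := inv_le_one_of_one_le₀ (by linarith)
      have e6 : t * ‖F.v b‖ ≤ δ * (1 + ∑ b, ‖F.v b‖) := by
        apply mul_le_mul htδ (by linarith) (norm_nonneg _) hδ
      have e7 : 0 ≤ ‖F.v b - x + t • F.v b‖ := norm_nonneg _
      have e8 : 0 < (1 + t)⁻¹ := inv_pos.2 h1t
      nlinarith
    rw [e1, norm_smul, Real.norm_eq_abs, abs_of_pos (div_pos h1κ hκ)]
    have e9 : 0 ≤ ‖F.v b - (1 + t)⁻¹ • x‖ := norm_nonneg _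
    rw [div_mul_eq_mul_div, div_le_iff₀ hκ]
    nlinarith
  have hzb : z ∈ F.body := hb a z hza hzc
  have hdec : w = ((1 - κ) / (1 + t)) • x + κ • z := by
    rw [hw, hz, smul_add, smul_smul, mul_div_cancel₀ _ hκ.ne', smul_sub, smul_smul,
      ← div_eq_mul_inv]
    abel
  have hgx : gauge K x ≤ 1 := gauge_le_one_of_mem hx
  have hgz : gauge K z ≤ 1 := gauge_le_one_of_mem (hFK hzb)
  have hgw : gauge K w ≤ (1 - κ) / (1 + t) + κ := by
    rw [hdec]
    refine (gauge_add_le hK.conv hKa _ _).trans ?_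
    have hθ : 0 ≤ (1 - κ) / (1 + t) := (div_pos h1κ h1t).le
    rw [gauge_smul_of_nonneg hθ, gauge_smul_of_nonneg hκ.le, smul_eq_mul, smul_eq_mul]
    have := mul_le_mul_of_nonneg_left hgx hθ
    have := mul_le_mul_of_nonneg_left hgz hκ.le
    linarith
  have hfin : (1 - κ) * t ≤ (1 + t) * (1 - gauge K w) := by
    have : (1 + t) * gauge K w ≤ (1 - κ) + (1 + t) * κ := by
      have h := mul_le_mul_of_nonneg_left hgw h1t.le
      rwa [mul_add, mul_div_cancel₀ _ h1t.ne'] at h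
    linarith
  rw [hux]
  have hfin2 : (1 - κ) * t ≤ (1 + δ) * (1 - gauge K w) := by
    refine hfin.trans ?_
    apply mul_le_mul_of_nonneg_right _ (by linarith)
    linarith
  have : t ≤ (1 + δ) * (1 - gauge K w) / (1 - κ) := by
    rw [le_div_iff₀ h1κ]
    linarith
  linarith

end Pool.Agent.TH241.LP931
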